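import Pool.Agent.H47.WTH.Stmts

/-!
# WTH, row TGR: a cheap set of light primes with much mass
-/

set_option autoImplicit false

namespace Pool.WTH

open Finset Pool.Agent.H98.ABCR Pool.SHA Pool.VIO

/-- **TGR**. -/
theorem tgr_thm (hGRL : S_GRL) : S_TGR := by
  classical
  intro X η ν n hX hη hν hν1 hην hn hrad
  have hX0 : 0 < X := by linarith
  have hlX : 0 < Real.log X := Real.log_pos hX
  obtain ⟨s, hs⟩ : ∃ s, s = n.primeFactors.filter (fun q : ℕ => (q : ℝ) ≤ X ^ η) := ⟨_, rfl⟩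
  have hpr : ∀ q ∈ s, q.Prime ∧ (q : ℝ) ≤ X ^ η := by
    intro q hq
    rw [hs, Finset.mem_filter] at hq
    exact ⟨Nat.prime_of_mem_primeFactors hq.1, hq.2⟩
  have hq1 : ∀ q ∈ s, (1 : ℝ) < q := fun q hq => by exact_mod_cast (hpr q hq).1.one_lt
  have hlq : ∀ q ∈ s, 0 < Real.log q := fun q hq => Real.log_pos (hq1 q hq)
  obtain ⟨F, hFs, hF1, hF2, hF3⟩ := hGRL s (fun q => Real.log q / Real.log X)
    (fun q => (n.factorization q : ℝ) * Real.log q) η (1 - ν / 2) hη.le (by linarith) (by linarith) (by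
      intro q hq
      refine ⟨div_pos (hlq q hq) hlX, ?_, mul_nonneg (Nat.cast_nonneg _) (hlq q hq).le⟩
      rw [div_le_iff₀ hlX, ← Real.log_rpow hX0]
      exact Real.log_le_log (by linarith [hq1 q hq]) (hpr q hq).2)
  have hsum : ∑ q ∈ s, Real.log q / Real.log X ≤ 1 := by
    rw [← Finset.sum_div, div_le_one hlX]
    have h1 : ∑ q ∈ s, Real.log q ≤ ∑ q ∈ n.primeFactors, Real.log q := by
      refine Finset.sum_le_sum_of_subset_of_nonneg (by rw [hs]; exact Finset.filter_subset _ _) ?_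
      intro q hq _
      exact Real.log_nonneg (by exact_mod_cast (Nat.prime_of_mem_primeFactors hq).one_le)
    refine h1.trans ?_
    have h2 : ∑ q ∈ n.primeFactors, Real.log q = Real.log (rad n) := by
      unfold rad
      rw [Nat.cast_prod, Real.log_prod]
      intro q hq
      exact_mod_cast (Nat.prime_of_mem_primeFactors hq).ne_zero
    rw [h2]
    refine Real.log_le_log ?_ hrad
    have : 0 < rad n := Finset.prod_pos fun q hq => (Nat.prime_of_mem_primeFactors hq).pos
    exact_mod_cast this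
  have hsplit : ∀ f : ℕ → ℝ, ∑ q ∈ s \ F, f q = ∑ q ∈ s, f q - ∑ q ∈ F, f q := by
    intro f
    rw [← Finset.sum_sdiff hFs]
    ring
  refine ⟨s \ F, ?_, ?_, ?_⟩
  · rw [← hs]
    exact Finset.sdiff_subset
  · have hT : ∑ q ∈ s \ F, Real.log q / Real.log X ≤ ν := by
      rw [hsplit]
      nlinarith
    rw [← Finset.sum_div, div_le_iff₀ hlX] at hT
    have hpos : ∀ q ∈ s \ F, (q : ℝ) ≠ 0 := by
      intro q hq
      have := hq1 q (Finset.mem_sdiff.1 hq).1
      linarith
    have h1 : (0 : ℝ) < ((∏ q ∈ s \ F, q : ℕ) : ℝ) := by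
      rw [Nat.cast_prod]
      refine Finset.prod_pos ?_
      intro q hq
      have := hq1 q (Finset.mem_sdiff.1 hq).1
      linarith
    rw [← Real.log_le_log_iff h1 (Real.rpow_pos_of_pos hX0 _), Real.log_rpow hX0, Nat.cast_prod,
      Real.log_prod hpos]
    exact hT
  · have h1 : kl (s \ F) n = ∑ q ∈ s \ F, (n.factorization q : ℝ) * Real.log q := rfl
    have h2 : lm X η n = ∑ q ∈ s, (n.factorization q : ℝ) * Real.log q := by
      unfold lm
      rw [hs]
    rw [h1, h2, hsplit]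
    nlinarith

end Pool.WTH
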